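import Pool.Agent.V1198.BLSp

/-!
# A family on the binary tree whose `c_0`-free sets are the finite unions of antichains

The family consists of the finite antichains and of the finite chains `F` such that every element of
`F` has length at least `card F`.
-/

set_option autoImplicit false

noncomputable section

open Filter Topology Pool.Agent.V1198.BL ZeroAtInfty

namespace Pool.Agent.Results.MP_de5a3f_an.ChainAntichain

/-- The nodes of the binary tree; `s` is below `t` if `s` is a prefix of `t`, written `s <+: t`. -/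
abbrev Node : Type := List Bool

/-- `A` is an antichain. -/
def IsAnti (A : Set Node) : Prop := ∀ s ∈ A, ∀ t ∈ A, s <+: t → s = t

/-- The sets of nodes that are unions of finitely many antichains. -/
def antichainIdeal : Set (Set Node) :=
  {H | ∃ (k : ℕ) (A : Fin k → Set Node), (∀ i, IsAnti (A i)) ∧ H = ⋃ i, A i}

/-- `‖x‖_F = sup {∑_{k ∈ A} |x k| : A ∈ F}` for a finitely supported `x`. -/
def famNorm {ι : Type} (F : Set (Finset ι)) (x : ι →₀ ℝ) : ℝ := ⨆ A : F, ∑ k ∈ A.1, |x k|

/-- The Banach space `X` is (with the embedding `J`) the completion of the space of finitely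
supported vectors under the norm `‖x‖_F`. -/
structure IsCompletion {ι : Type} (F : Set (Finset ι)) (X : Type) [NormedAddCommGroup X]
    [NormedSpace ℝ X] (J : (ι →₀ ℝ) →ₗ[ℝ] X) : Prop where
  complete : CompleteSpace X
  norm_eq : ∀ x, ‖J x‖ = famNorm F x
  dense : DenseRange J

/-- `X` contains a subspace isomorphic to `c_0`. -/
def ContainsC0 (X : Type) [NormedAddCommGroup X] [NormedSpace ℝ X] : Prop :=
  ∃ (T : C₀(ℕ, ℝ) →L[ℝ] X) (c : ℝ), 0 < c ∧ ∀ a, c * ‖a‖ ≤ ‖T a‖

/-- The family of the sets `A ∩ H`, `A ∈ F`, as subsets of `H`. -/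
def restr (F : Set (Finset Node)) (H : Set Node) : Set (Finset H) :=
  {G | ∃ A ∈ F, ∀ s : H, s ∈ G ↔ (s : Node) ∈ A}

/-- `H(F, ¬c_0)`: the sets `H` such that the completion of the finitely supported vectors on `H`
under the norm of the restricted family has no subspace isomorphic to `c_0`. -/
def notC0 (F : Set (Finset Node)) : Set (Set Node) :=
  {H | ∃ (X : Type) (_ : NormedAddCommGroup X) (_ : NormedSpace ℝ X) (J : (H →₀ ℝ) →ₗ[ℝ] X),
    IsCompletion (restr F H) X J ∧ ¬ ContainsC0 X}

variable {ι : Type}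

theorem sum_le_l1 (x : ι →₀ ℝ) (A : Finset ι) : ∑ k ∈ A, |x k| ≤ ∑ k ∈ x.support, |x k| := by
  classical
  calc ∑ k ∈ A, |x k| = ∑ k ∈ A.filter (fun k => x k ≠ 0), |x k| := by
        symm
        refine Finset.sum_subset (Finset.filter_subset _ _) fun k hk hk2 => ?_
        rw [Finset.mem_filter] at hk2
        push Not at hk2
        rw [hk2 hk, abs_zero]
    _ ≤ _ := Finset.sum_le_sum_of_subset_of_nonneg (fun k hk => by
        rw [Finset.mem_filter] at hk
        exact Finsupp.mem_support_iff.mpr hk.2) fun _ _ _ => abs_nonneg _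

theorem famNorm_bdd (F : Set (Finset ι)) (x : ι →₀ ℝ) :
    BddAbove (Set.range fun A : F => ∑ k ∈ A.1, |x k|) :=
  ⟨∑ k ∈ x.support, |x k|, by rintro _ ⟨A, rfl⟩; exact sum_le_l1 x A.1⟩

theorem le_famNorm {F : Set (Finset ι)} (x : ι →₀ ℝ) {A : Finset ι} (hA : A ∈ F) :
    ∑ k ∈ A, |x k| ≤ famNorm F x := le_ciSup (famNorm_bdd F x) ⟨A, hA⟩

theorem famNorm_le {F : Set (Finset ι)} {x : ι →₀ ℝ} {C : ℝ} (hC : 0 ≤ C)
    (h : ∀ A ∈ F, ∑ k ∈ A, |x k| ≤ C) : famNorm F x ≤ C :=
  Real.iSup_le (fun A => h A.1 A.2) hC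

theorem famNorm_le_l1 (F : Set (Finset ι)) (x : ι →₀ ℝ) :
    famNorm F x ≤ ∑ k ∈ x.support, |x k| :=
  famNorm_le (Finset.sum_nonneg fun _ _ => abs_nonneg _) fun A _ => sum_le_l1 x A

/-! ### Existence of the completion -/

theorem exists_completion (F : Set (Finset ι)) (hF : ∀ j, ∃ A ∈ F, j ∈ A) :
    ∃ (X : Type) (_ : NormedAddCommGroup X) (_ : NormedSpace ℝ X) (J : (ι →₀ ℝ) →ₗ[ℝ] X),
      IsCompletion F X J := by
  let P := Spec.full F hF
  let J0 : (ι →₀ ℝ) →ₗ[ℝ] Sp P :=
    { toFun := fun x => ⟨x, famNorm_bdd F x⟩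
      map_add' := fun x y => Sp.ext fun j => rfl
      map_smul' := fun c x => Sp.ext fun j => rfl }
  let Y : Submodule ℝ (Sp P) := (LinearMap.range J0).topologicalClosure
  have hmem : ∀ x, J0 x ∈ Y := fun x =>
    Submodule.le_topologicalClosure _ (LinearMap.mem_range_self J0 x)
  refine ⟨Y, inferInstance, inferInstance, J0.codRestrict Y hmem, ?_, ?_, ?_⟩
  · exact (Submodule.isClosed_topologicalClosure _).completeSpace_coe
  · intro x; rfl
  · intro y
    rw [Metric.mem_closure_iff]
    intro ε hε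
    have h1 : (y : Sp P) ∈ closure (LinearMap.range J0 : Set (Sp P)) := y.2
    obtain ⟨_, ⟨x, rfl⟩, hx⟩ := Metric.mem_closure_iff.mp h1 ε hε
    exact ⟨_, ⟨x, rfl⟩, hx⟩

/-! ### Spaces with norm equivalent to the `ℓ_1`-norm do not contain `c_0` -/

/-- The unit vectors of `c_0`. -/
def unitVec (a : ℕ → ℝ) (A : Finset ℕ) : C₀(ℕ, ℝ) where
  toFun := Set.indicator (A : Set ℕ) a
  continuous_toFun := continuous_of_discreteTopology
  zero_at_infty' := by
    rw [Filter.cocompact_eq_cofinite]
    refine tendsto_const_nhds.congr' ?_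
    filter_upwards [A.finite_toSet.compl_mem_cofinite] with n hn
    exact (Set.indicator_of_notMem hn a).symm

theorem unitVec_apply (a : ℕ → ℝ) (A : Finset ℕ) (n : ℕ) [Decidable (n ∈ A)] :
    unitVec a A n = if n ∈ A then a n else 0 := by
  show Set.indicator (A : Set ℕ) a n = _
  rw [Set.indicator_apply]
  simp only [Finset.mem_coe]

theorem norm_c0_le {a : C₀(ℕ, ℝ)} {C : ℝ} (hC : 0 ≤ C) (h : ∀ n, |a n| ≤ C) : ‖a‖ ≤ C := by
  rw [← ZeroAtInftyContinuousMap.norm_toBCF_eq_norm]
  exact (BoundedContinuousFunction.norm_le hC).mpr h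

theorem apply_le_c0 (a : C₀(ℕ, ℝ)) (n : ℕ) : |a n| ≤ ‖a‖ := by
  rw [← ZeroAtInftyContinuousMap.norm_toBCF_eq_norm]
  exact BoundedContinuousFunction.norm_coe_le_norm a.toBCF n

theorem unitVec_eq_sum (a : ℕ → ℝ) (A : Finset ℕ) :
    unitVec a A = ∑ n ∈ A, a n • unitVec (fun _ => 1) {n} := by
  classical
  ext j
  have : (∑ n ∈ A, a n • unitVec (fun _ => 1) {n}) j =
      ∑ n ∈ A, (a n • unitVec (fun _ => 1) {n}) j := by
    induction A using Finset.induction_on with
    | empty => rfl
    | insert n A hn ih =>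
      rw [Finset.sum_insert hn, Finset.sum_insert hn, ← ih]; rfl
  rw [this, unitVec_apply]
  have h2 : ∀ n, (a n • unitVec (fun _ => 1) {n}) j = if n = j then a n else 0 := fun n => by
    show a n * unitVec (fun _ => 1) {n} j = _
    rw [unitVec_apply]
    by_cases h : n = j
    · rw [if_pos h, if_pos (by simp [h]), mul_one]
    · rw [if_neg h, if_neg (by simpa using fun h' => h h'.symm), mul_zero]
  simp only [h2, Finset.sum_ite_eq']

theorem no_c0 {F : Set (Finset ι)} {K : ℝ}
    (hK : ∀ x : ι →₀ ℝ, ∑ k ∈ x.support, |x k| ≤ K * famNorm F x)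
    (X : Type) [NormedAddCommGroup X] [NormedSpace ℝ X] (J : (ι →₀ ℝ) →ₗ[ℝ] X)
    (hJ : IsCompletion F X J) : ¬ ContainsC0 X := by
  classical
  rintro ⟨T, c, hc, hT⟩
  set e : ℕ → C₀(ℕ, ℝ) := fun n => unitVec (fun _ => 1) {n} with he
  have hK' : ∀ x : ι →₀ ℝ, ∑ k ∈ x.support, |x k| ≤ |K| * famNorm F x := fun x => by
    refine (hK x).trans (mul_le_mul_of_nonneg_right (le_abs_self K) ?_)
    rw [← hJ.norm_eq]
    exact norm_nonneg _
  -- approximations
  have h1 : ∀ n, ∃ y : ι →₀ ℝ, ‖T (e n) - J y‖ < c / 4 * (1 / 2) ^ n := fun n => by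
    have h2 := hJ.dense (T (e n))
    obtain ⟨_, ⟨y, rfl⟩, hy⟩ := Metric.mem_closure_iff.mp h2 (c / 4 * (1 / 2) ^ n) (by positivity)
    exact ⟨y, by rwa [dist_eq_norm] at hy⟩
  choose y hy using h1
  have hgeom : ∀ A : Finset ℕ, ∑ n ∈ A, c / 4 * (1 / 2 : ℝ) ^ n ≤ c / 2 := fun A => by
    have h2 := (summable_geometric_two).mul_left (c / 4)
    have h3 := h2.sum_le_tsum A fun i _ => by positivity
    rw [tsum_mul_left, tsum_geometric_two] at h3
    linarith
  -- boundedness of the sums
  set M := |K| * (‖T‖ + c / 2) with hM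
  have hMb : ∀ A : Finset ℕ, ∀ B : Finset ι, ∑ k ∈ B, |(∑ n ∈ A, y n) k| ≤ M := fun A B => by
    refine (sum_le_l1 _ _).trans ((hK' _).trans (mul_le_mul_of_nonneg_left ?_ (abs_nonneg _)))
    rw [← hJ.norm_eq, map_sum]
    have h2 : ∑ n ∈ A, J (y n) = T (∑ n ∈ A, e n) - ∑ n ∈ A, (T (e n) - J (y n)) := by
      rw [Finset.sum_sub_distrib, map_sum]; abel
    rw [h2]
    refine (norm_sub_le _ _).trans (add_le_add ?_ ?_)
    · have h3 : ∑ n ∈ A, e n = unitVec (fun _ => 1) A := by
        rw [unitVec_eq_sum]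
        exact Finset.sum_congr rfl fun n _ => (one_smul _ _).symm
      rw [h3]
      refine (T.le_opNorm _).trans ?_
      have h4 : ‖unitVec (fun _ => 1) A‖ ≤ 1 := norm_c0_le zero_le_one fun n => by
        rw [unitVec_apply]; split_ifs <;> simp
      nlinarith [norm_nonneg T]
    · exact (norm_sum_le _ _).trans ((Finset.sum_le_sum fun n _ => (hy n).le).trans (hgeom A))
  have hlow : ∀ n, c / 2 ≤ ∑ k ∈ (y n).support, |y n k| := fun n => by
    refine le_trans ?_ (famNorm_le_l1 F (y n))
    rw [← hJ.norm_eq]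
    have h2 := hT (e n)
    have h3 : 1 ≤ ‖e n‖ := by
      have := apply_le_c0 (e n) n
      rw [he] at this ⊢
      simp only [unitVec_apply, Finset.mem_singleton, if_true, abs_one] at this
      exact this
    have h4 := hy n
    have h5 : ‖T (e n)‖ ≤ ‖T (e n) - J (y n)‖ + ‖J (y n)‖ := by
      have := norm_add_le (T (e n) - J (y n)) (J (y n))
      rwa [sub_add_cancel] at this
    have h6 : (1 / 2 : ℝ) ^ n ≤ 1 := pow_le_one₀ (by norm_num) (by norm_num)
    nlinarith
  -- pointwise convergence
  have hpt : ∀ k, Tendsto (fun n => |y n k|) cofinite (𝓝 0) := fun k => by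
    have hs : Summable fun n => |y n k| := by
      refine summable_of_sum_le (c := 2 * M) (fun _ => abs_nonneg _) fun A => ?_
      have h2 : ∀ B : Finset ℕ, |∑ n ∈ B, y n k| ≤ M := fun B => by
        have := hMb B {k}
        rw [Finset.sum_singleton, Finsupp.finsetSum_apply] at this
        exact this
      rw [← Finset.sum_filter_add_sum_filter_not A fun n => 0 ≤ y n k]
      have h3 : ∑ n ∈ A.filter (fun n => 0 ≤ y n k), |y n k| ≤ M := by
        have h4 : ∑ n ∈ A.filter (fun n => 0 ≤ y n k), |y n k| =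
            ∑ n ∈ A.filter (fun n => 0 ≤ y n k), y n k :=
          Finset.sum_congr rfl fun n hn => abs_of_nonneg (Finset.mem_filter.mp hn).2
        rw [h4]
        exact (le_abs_self _).trans (h2 _)
      have h4 : ∑ n ∈ A.filter (fun n => ¬ 0 ≤ y n k), |y n k| ≤ M := by
        have h5 : ∑ n ∈ A.filter (fun n => ¬ 0 ≤ y n k), |y n k| =
            -∑ n ∈ A.filter (fun n => ¬ 0 ≤ y n k), y n k := by
          rw [← Finset.sum_neg_distrib]
          refine Finset.sum_congr rfl fun n hn => abs_of_neg ?_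
          have := (Finset.mem_filter.mp hn).2
          push Not at this
          exact this
        rw [h5]
        exact (neg_le_abs _).trans (h2 _)
      linarith
    exact hs.tendsto_cofinite_zero
  -- greedy choice
  have hgreedy : ∀ i : ℕ, ∃ A : Finset ℕ, c / 4 * i ≤
      ∑ k ∈ (∑ n ∈ A, y n).support, |(∑ n ∈ A, y n) k| := by
    intro i
    induction i with
    | zero => exact ⟨∅, by simp⟩
    | succ i ih =>
      obtain ⟨A, hA⟩ := ih
      set z := ∑ n ∈ A, y n with hz
      have h2 : Tendsto (fun n => ∑ k ∈ z.support, |y n k|) cofinite (𝓝 (∑ k ∈ z.support, 0)) :=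
        tendsto_finsetSum _ fun k _ => hpt k
      rw [Finset.sum_const_zero] at h2
      have h3 : ∀ᶠ n in cofinite, ∑ k ∈ z.support, |y n k| < c / 8 :=
        h2.eventually_lt_const (by positivity)
      have h4 : ∀ᶠ n in cofinite, n ∉ A := by
        filter_upwards [A.finite_toSet.compl_mem_cofinite] with n hn
        simpa using hn
      obtain ⟨n, hn1, hn2⟩ := (h3.and h4).exists
      refine ⟨insert n A, ?_⟩
      rw [Finset.sum_insert hn2, ← hz]
      have h5 := sum_le_l1 (y n + z) (z.support ∪ (y n).support \ z.support)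
      rw [Finset.sum_union Finset.disjoint_sdiff] at h5
      refine le_trans ?_ h5
      have h6 : ∑ k ∈ z.support, |z k| - ∑ k ∈ z.support, |y n k| ≤
          ∑ k ∈ z.support, |(y n + z) k| := by
        rw [← Finset.sum_sub_distrib]
        refine Finset.sum_le_sum fun k _ => ?_
        rw [Finsupp.add_apply]
        have := abs_sub_abs_le_abs_sub (z k) (-(y n k))
        rw [abs_neg, sub_neg_eq_add, add_comm (z k)] at this
        exact this
      have h7 : ∑ k ∈ (y n).support \ z.support, |(y n + z) k| =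
          ∑ k ∈ (y n).support \ z.support, |y n k| :=
        Finset.sum_congr rfl fun k hk => by
          have : z k = 0 := Finsupp.notMem_support_iff.mp (Finset.mem_sdiff.mp hk).2
          rw [Finsupp.add_apply, this, add_zero]
      have h8 : ∑ k ∈ (y n).support, |y n k| ≤
          ∑ k ∈ z.support, |y n k| + ∑ k ∈ (y n).support \ z.support, |y n k| := by
        rw [← Finset.sum_union Finset.disjoint_sdiff]
        refine Finset.sum_le_sum_of_subset_of_nonneg (fun k hk => ?_) fun _ _ _ => abs_nonneg _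
        rw [Finset.union_sdiff_self_eq_union]
        exact Finset.mem_union_right _ hk
      rw [h7]
      have h9 := hlow n
      rw [Nat.cast_succ]
      linarith
  obtain ⟨i, hi⟩ := exists_nat_gt (M / (c / 4))
  rw [div_lt_iff₀ (by positivity)] at hi
  obtain ⟨A, hA⟩ := hgreedy i
  have := hMb A (∑ n ∈ A, y n).support
  nlinarith

/-! ### Sequences equivalent to the unit vectors of `c_0` -/

theorem has_c0 {F : Set (Finset ι)} (u : ℕ → ι →₀ ℝ) {D : ℝ}
    (hup : ∀ (A : Finset ℕ) (a : ℕ → ℝ) (M : ℝ), 0 ≤ M → (∀ n ∈ A, |a n| ≤ M) →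
      famNorm F (∑ n ∈ A, a n • u n) ≤ D * M)
    (hlow : ∀ (A : Finset ℕ) (a : ℕ → ℝ), ∀ n ∈ A, |a n| ≤ famNorm F (∑ n ∈ A, a n • u n))
    (X : Type) [NormedAddCommGroup X] [NormedSpace ℝ X] (J : (ι →₀ ℝ) →ₗ[ℝ] X)
    (hJ : IsCompletion F X J) : ContainsC0 X := by
  classical
  have := hJ.complete
  have hJs : ∀ (A : Finset ℕ) (a : ℕ → ℝ), ‖∑ n ∈ A, a n • J (u n)‖ =
      famNorm F (∑ n ∈ A, a n • u n) := fun A a => by
    rw [← hJ.norm_eq, map_sum]
    simp only [map_smul]
  have hs : ∀ a : C₀(ℕ, ℝ), Summable fun n => a n • J (u n) := fun a => by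
    rw [summable_iff_vanishing_norm]
    intro ε hε
    have h1 : Tendsto (fun n => |a n|) cofinite (𝓝 0) := by
      have := a.zero_at_infty'
      rw [Filter.cocompact_eq_cofinite] at this
      have h2 := this.abs
      rw [abs_zero] at h2
      exact h2
    have h2 : ∀ᶠ n in cofinite, |a n| < ε / (|D| + 1) := h1.eventually_lt_const (by positivity)
    have h3 : {n | ¬ |a n| < ε / (|D| + 1)}.Finite := h2
    refine ⟨h3.toFinset, fun t ht => ?_⟩
    rw [hJs]
    refine lt_of_le_of_lt ((hup t a (ε / (|D| + 1)) (by positivity) fun n hn => ?_)) ?_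
    · by_contra h4
      push Not at h4
      exact Finset.disjoint_left.mp ht hn (h3.mem_toFinset.mpr (not_lt.mpr h4.le))
    · rw [mul_div_assoc', div_lt_iff₀ (by positivity)]
      nlinarith [le_abs_self D]
  let T0 : C₀(ℕ, ℝ) →ₗ[ℝ] X :=
    { toFun := fun a => ∑' n, a n • J (u n)
      map_add' := fun a b => by
        rw [← (hs a).tsum_add (hs b)]
        exact tsum_congr fun n => by rw [← add_smul]; rfl
      map_smul' := fun c a => by
        rw [RingHom.id_apply, ← tsum_const_smul'' c]
        exact tsum_congr fun n => by rw [smul_smul]; rfl }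
  have hlim : ∀ a, Tendsto (fun A : Finset ℕ => ‖∑ n ∈ A, a n • J (u n)‖) atTop (𝓝 ‖T0 a‖) :=
    fun a => (hs a).hasSum.norm
  have hb : ∀ a, ‖T0 a‖ ≤ D * ‖a‖ := fun a => by
    refine le_of_tendsto (hlim a) (Eventually.of_forall fun A => ?_)
    rw [hJs]
    exact hup A a ‖a‖ (norm_nonneg _) fun n _ => apply_le_c0 a n
  refine ⟨T0.mkContinuous D hb, 1, one_pos, fun a => ?_⟩
  rw [one_mul]
  show ‖a‖ ≤ ‖T0 a‖
  refine norm_c0_le (norm_nonneg _) fun n => ?_
  refine ge_of_tendsto (hlim a) ((eventually_ge_atTop {n}).mono fun A hA => ?_)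
  rw [hJs]
  exact hlow A a n (hA (Finset.mem_singleton_self n))

/-- The average of the unit vectors on `C`. -/
def avg (C : Finset ι) : ι →₀ ℝ := by
  classical
  exact Finsupp.onFinset C (fun s => if s ∈ C then (C.card : ℝ)⁻¹ else 0) fun s hs => by
    by_contra h
    exact hs (if_neg h)

theorem avg_apply (C : Finset ι) (s : ι) [Decidable (s ∈ C)] :
    avg C s = if s ∈ C then (C.card : ℝ)⁻¹ else 0 := by
  classical
  by_cases h : s ∈ C
  · rw [if_pos h]
    exact if_pos h
  · rw [if_neg h]
    exact if_neg h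

theorem avg_has_c0 {F : Set (Finset ι)} [DecidableEq ι] (C : ℕ → Finset ι)
    (hne : ∀ n, (C n).Nonempty) (hC : ∀ n, C n ∈ F) (hdisj : ∀ i j, i ≠ j → Disjoint (C i) (C j))
    {D : ℝ} (hD : ∀ G ∈ F, ∀ A : Finset ℕ, ∑ n ∈ A, ((G ∩ C n).card : ℝ) / (C n).card ≤ D)
    (X : Type) [NormedAddCommGroup X] [NormedSpace ℝ X] (J : (ι →₀ ℝ) →ₗ[ℝ] X)
    (hJ : IsCompletion F X J) : ContainsC0 X := by
  have happ : ∀ (A : Finset ℕ) (a : ℕ → ℝ) (k : ι),
      (∑ n ∈ A, a n • avg (C n)) k = ∑ n ∈ A, a n * avg (C n) k := fun A a k => by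
    rw [Finsupp.finsetSum_apply]
    rfl
  have hcard : ∀ n, (0 : ℝ) < (C n).card := fun n => by
    exact_mod_cast Finset.card_pos.mpr (hne n)
  have hD0 : 0 ≤ D := by
    have := hD (C 0) (hC 0) ∅
    simpa using this
  refine has_c0 (fun n => avg (C n)) (D := D) ?_ ?_ X J hJ
  · intro A a M hM ha
    refine famNorm_le (mul_nonneg hD0 hM) fun G hG => ?_
    calc ∑ k ∈ G, |(∑ n ∈ A, a n • avg (C n)) k|
        ≤ ∑ k ∈ G, ∑ n ∈ A, M * avg (C n) k := Finset.sum_le_sum fun k _ => by
          rw [happ]
          refine (Finset.abs_sum_le_sum_abs _ _).trans (Finset.sum_le_sum fun n hn => ?_)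
          rw [abs_mul]
          have h1 : 0 ≤ avg (C n) k := by
            rw [avg_apply]
            split_ifs
            · exact inv_nonneg.mpr (hcard n).le
            · exact le_rfl
          rw [abs_of_nonneg h1]
          exact mul_le_mul_of_nonneg_right (ha n hn) h1
      _ = M * ∑ n ∈ A, ((G ∩ C n).card : ℝ) / (C n).card := by
          rw [Finset.sum_comm, Finset.mul_sum]
          refine Finset.sum_congr rfl fun n _ => ?_
          rw [← Finset.mul_sum]
          congr 1
          simp only [avg_apply]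
          rw [← Finset.sum_filter, Finset.sum_const, Finset.filter_mem_eq_inter, nsmul_eq_mul,
            div_eq_mul_inv]
      _ ≤ M * D := mul_le_mul_of_nonneg_left (hD G hG A) hM
      _ = D * M := mul_comm _ _
  · intro A a n hn
    refine le_trans (le_of_eq ?_) (le_famNorm _ (hC n))
    have h1 : ∀ k ∈ C n, |(∑ i ∈ A, a i • avg (C i)) k| = |a n| * ((C n).card : ℝ)⁻¹ := by
      intro k hk
      rw [happ, Finset.sum_eq_single n]
      · rw [avg_apply, if_pos hk, abs_mul, abs_of_nonneg (inv_nonneg.mpr (hcard n).le)]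
      · intro i _ hi
        rw [avg_apply, if_neg, mul_zero]
        exact fun h => Finset.disjoint_left.mp (hdisj i n hi) h hk
      · exact fun h => absurd hn h
    rw [Finset.sum_congr rfl h1, Finset.sum_const, nsmul_eq_mul]
    have := hcard n
    field_simp

/-! ### Combinatorics of the tree -/

/-- The family: the finite antichains, and the finite chains `A` whose elements have length at least
`card A`. -/
def family : Set (Finset Node) :=
  {A | IsAnti (A : Set Node)} ∪
    {A | (∀ s ∈ A, ∀ t ∈ A, s <+: t ∨ t <+: s) ∧ ∀ s ∈ A, A.card ≤ s.length}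

theorem family_cover (s : Node) : ∃ A ∈ family, s ∈ A :=
  ⟨{s}, Or.inl (by
    intro a ha b hb _
    rw [Finset.mem_coe, Finset.mem_singleton] at ha hb
    rw [ha, hb]), Finset.mem_singleton_self s⟩

/-- The number of proper prefixes of `s` that belong to `H`. -/
def rank (H : Set Node) (s : Node) : ℕ := by
  classical
  exact ((Finset.range s.length).filter fun i => s.take i ∈ H).card

theorem rank_lt {H : Set Node} {s t : Node} (hs : s ∈ H) (hst : s <+: t) (hne : s ≠ t) :
    rank H s < rank H t := by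
  classical
  have hlen : s.length < t.length := by
    refine lt_of_le_of_ne hst.length_le fun h => hne (hst.eq_of_length h)
  have hs' : s = t.take s.length := List.prefix_iff_eq_take.mp hst
  refine Finset.card_lt_card ?_
  rw [Finset.ssubset_iff]
  refine ⟨s.length, ?_, ?_⟩
  · simp
  · intro i hi
    rw [Finset.mem_insert, Finset.mem_filter, Finset.mem_range] at hi
    rw [Finset.mem_filter, Finset.mem_range]
    rcases hi with rfl | ⟨h1, h2⟩
    · exact ⟨hlen, by rw [← hs']; exact hs⟩
    · refine ⟨h1.trans hlen, ?_⟩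
      rw [hs', List.take_take, min_eq_left h1.le] at h2
      exact h2

theorem mem_ideal_of_rank_le {H : Set Node} {k : ℕ} (h : ∀ s ∈ H, rank H s ≤ k) :
    H ∈ antichainIdeal := by
  refine ⟨k + 1, fun i => {s | s ∈ H ∧ rank H s = i}, ?_, ?_⟩
  · intro i s hs t ht hst
    by_contra hne
    have h1 := rank_lt hs.1 hst hne
    rw [hs.2, ht.2] at h1
    exact lt_irrefl _ h1
  · ext s
    constructor
    · intro hs
      exact Set.mem_iUnion.mpr ⟨⟨rank H s, Nat.lt_succ_of_le (h s hs)⟩, hs, rfl⟩
    · intro hs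
      obtain ⟨i, hi⟩ := Set.mem_iUnion.mp hs
      exact hi.1

theorem take_prefix (t : Node) {i j : ℕ} (h : i ≤ j) : t.take i <+: t.take j := by
  have h1 : (t.take j).take i = t.take i := by rw [List.take_take, min_eq_left h]
  rw [← h1]
  exact List.take_prefix _ _

theorem exists_chain {H : Set Node} (hH : H ∉ antichainIdeal) (m : ℕ) : ∃ C : Finset H,
    C.card = m ∧ (∀ s ∈ C, ∀ t ∈ C, (s : Node) <+: t ∨ (t : Node) <+: s) ∧
      ∀ s ∈ C, m ≤ (s : Node).length := by
  classical
  obtain ⟨t, htH, ht⟩ : ∃ t ∈ H, 2 * m < rank H t := by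
    by_contra h
    push Not at h
    exact hH (mem_ideal_of_rank_le h)
  set I : Finset ℕ := (Finset.range t.length).filter fun i => t.take i ∈ H with hI
  have hIc : 2 * m < I.card := ht
  have h1 : m ≤ (I \ Finset.range m).card := by
    have := Finset.le_card_sdiff (Finset.range m) I
    rw [Finset.card_range] at this
    omega
  obtain ⟨I', hI', hcard⟩ := Finset.exists_subset_card_eq h1
  have hmem : ∀ i ∈ I', t.take i ∈ H ∧ m ≤ i ∧ i < t.length := fun i hi => by
    have h2 := Finset.mem_sdiff.mp (hI' hi)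
    have h3 := Finset.mem_filter.mp h2.1
    rw [Finset.mem_range] at h2 h3
    exact ⟨h3.2, not_lt.mp h2.2, h3.1⟩
  have hlen : ∀ i ∈ I', (t.take i).length = i := fun i hi => by
    rw [List.length_take, min_eq_left (hmem i hi).2.2.le]
  refine ⟨I'.attach.image fun i => ⟨t.take i.1, (hmem i.1 i.2).1⟩, ?_, ?_, ?_⟩
  · rw [Finset.card_image_of_injective, Finset.card_attach, hcard]
    intro i j hij
    have h2 : t.take i.1 = t.take j.1 := congrArg Subtype.val hij
    have h3 := congrArg List.length h2
    rw [hlen _ i.2, hlen _ j.2] at h3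
    exact Subtype.ext h3
  · intro s hs t' ht'
    obtain ⟨i, _, rfl⟩ := Finset.mem_image.mp hs
    obtain ⟨j, _, rfl⟩ := Finset.mem_image.mp ht'
    rcases le_total i.1 j.1 with h | h
    · exact Or.inl (take_prefix t h)
    · exact Or.inr (take_prefix t h)
  · intro s hs
    obtain ⟨i, _, rfl⟩ := Finset.mem_image.mp hs
    show m ≤ (t.take i.1).length
    rw [hlen _ i.2]
    exact (hmem i.1 i.2).2.1

/-- The sizes of the chains. -/
def size (L : ℕ → ℕ) : ℕ → ℕ
  | 0 => 1
  | n + 1 => 2 ^ (n + 1) * (L (size L n) + 1)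

theorem pow_le_size (L : ℕ → ℕ) (n : ℕ) : 2 ^ n ≤ size L n := by
  cases n with
  | zero => exact le_rfl
  | succ n => exact Nat.le_mul_of_pos_right _ (Nat.succ_pos _)

theorem containsC0_of_notMem {H : Set Node} (hH : H ∉ antichainIdeal)
    (X : Type) [NormedAddCommGroup X] [NormedSpace ℝ X] (J : (H →₀ ℝ) →ₗ[ℝ] X)
    (hJ : IsCompletion (restr family H) X J) : ContainsC0 X := by
  classical
  choose C0 hcard0 hchain0 hlen0 using exists_chain hH
  set L : ℕ → ℕ := fun m => (C0 m).sup fun s => (s : Node).length with hL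
  set m := size L with hm
  set C : ℕ → Finset H := fun n => C0 (m n) with hCdef
  have hcard : ∀ n, (C n).card = m n := fun n => hcard0 _
  have hmpos : ∀ n, 0 < m n := fun n => lt_of_lt_of_le (by positivity) (pow_le_size L n)
  have hne : ∀ n, (C n).Nonempty := fun n => Finset.card_pos.mp (by rw [hcard]; exact hmpos n)
  have hleL : ∀ n, ∀ s ∈ C n, (s : Node).length ≤ L (m n) := fun n s hs =>
    Finset.le_sup (f := fun s : H => (s : Node).length) hs
  have hLm : ∀ n, m n ≤ L (m n) := fun n => by
    obtain ⟨s, hs⟩ := hne n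
    exact (hlen0 _ s hs).trans (hleL n s hs)
  have hstep : ∀ n, 2 ^ (n + 1) * (L (m n) + 1) = m (n + 1) := fun n => rfl
  have hL1 : ∀ n, L (m n) < m (n + 1) := fun n => by
    rw [← hstep]
    exact lt_of_lt_of_le (Nat.lt_succ_self _) (Nat.le_mul_of_pos_left _ (by positivity))
  have hmono : StrictMono fun n => L (m n) :=
    strictMono_nat_of_lt_succ fun n => (hL1 n).trans_le (hLm _)
  have hbig : ∀ i j, i < j → 2 ^ j * (L (m i) + 1) ≤ m j := by
    intro i j hij
    obtain ⟨k, rfl⟩ : ∃ k, j = k + 1 := ⟨j - 1, by omega⟩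
    rw [← hstep]
    refine Nat.mul_le_mul_left _ (Nat.succ_le_succ ?_)
    exact hmono.monotone (Nat.lt_succ_iff.mp hij)
  refine avg_has_c0 C hne ?_ ?_ (D := 3) ?_ X J hJ
  · intro n
    refine ⟨(C n).map (Function.Embedding.subtype _), Or.inr ⟨?_, ?_⟩, ?_⟩
    · intro s hs t ht
      rw [Finset.mem_map] at hs ht
      obtain ⟨s, hs, rfl⟩ := hs
      obtain ⟨t, ht, rfl⟩ := ht
      exact hchain0 _ s hs t ht
    · intro s hs
      rw [Finset.mem_map] at hs
      obtain ⟨s, hs, rfl⟩ := hs
      rw [Finset.card_map, hcard]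
      exact hlen0 _ s hs
    · intro s
      rw [Finset.mem_map]
      constructor
      · exact fun hs => ⟨s, hs, rfl⟩
      · rintro ⟨t, ht, h⟩
        have : t = s := Subtype.ext h
        rwa [← this]
  · have key : ∀ i j, i < j → Disjoint (C i) (C j) := fun i j hij => by
      rw [Finset.disjoint_left]
      intro s hs hs'
      have h1 := hleL i s hs
      have h2 : m j ≤ (s : Node).length := hlen0 _ s hs'
      have h3 := hbig i j hij
      have h4 : L (m i) + 1 ≤ 2 ^ j * (L (m i) + 1) := Nat.le_mul_of_pos_left _ (by positivity)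
      omega
    intro i j hij
    rcases lt_or_gt_of_ne hij with h | h
    · exact key i j h
    · exact (key j i h).symm
  · rintro G ⟨A, hA, hGA⟩ B
    -- card (G ∩ C n) / card (C n) ≤ 2^{-n} except for at most one n
    have hgeom : ∑ n ∈ B, (1 / 2 : ℝ) ^ n ≤ 2 := by
      have h3 := summable_geometric_two.sum_le_tsum B fun i _ => by positivity
      rwa [tsum_geometric_two] at h3
    have hle1 : ∀ n, ((G ∩ C n).card : ℝ) / (C n).card ≤ 1 := fun n => by
      refine div_le_one_of_le₀ ?_ (Nat.cast_nonneg _)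
      exact_mod_cast Finset.card_le_card Finset.inter_subset_right
    have hfin : ∀ n k : ℕ, (G ∩ C n).card ≤ k → 2 ^ n * k ≤ m n →
        ((G ∩ C n).card : ℝ) / (C n).card ≤ (1 / 2) ^ n := by
      intro n k hk hk2
      rw [hcard, div_le_iff₀ (by exact_mod_cast hmpos n), one_div, inv_pow]
      have h1 : ((2 : ℝ) ^ n * k) ≤ m n := by exact_mod_cast hk2
      have h2 : ((G ∩ C n).card : ℝ) ≤ k := by exact_mod_cast hk
      have h3 : (0 : ℝ) < 2 ^ n := by positivity
      rw [inv_mul_eq_div, le_div_iff₀ h3]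
      nlinarith
    have hall : ∃ n0 : ℕ, ∀ n, n ≠ n0 → ((G ∩ C n).card : ℝ) / (C n).card ≤ (1 / 2) ^ n := by
      rcases hA with hA | ⟨hA, hA2⟩
      · refine ⟨0, fun n _ => hfin n 1 ?_ ?_⟩
        · rw [Finset.card_le_one]
          intro s hs t ht
          rw [Finset.mem_inter] at hs ht
          have hs1 : (s : Node) ∈ A := (hGA s).mp hs.1
          have ht1 : (t : Node) ∈ A := (hGA t).mp ht.1
          rcases hchain0 _ s hs.2 t ht.2 with h | h
          · exact Subtype.ext (hA s hs1 t ht1 h)
          · exact Subtype.ext (hA t ht1 s hs1 h).symm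
        · rw [mul_one]
          exact pow_le_size L n
      · by_cases hex : ∃ n, (G ∩ C n).Nonempty
        · refine ⟨Nat.find hex, fun n hn => ?_⟩
          rcases lt_or_gt_of_ne hn with h | h
          · have h1 := Nat.find_min hex h
            rw [Finset.not_nonempty_iff_eq_empty] at h1
            rw [h1, Finset.card_empty, Nat.cast_zero, zero_div]
            positivity
          · obtain ⟨s, hs⟩ := Nat.find_spec hex
            rw [Finset.mem_inter] at hs
            have h1 : A.card ≤ (s : Node).length := hA2 _ ((hGA s).mp hs.1)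
            have h2 := hleL _ s hs.2
            refine hfin n A.card ?_ ?_
            · refine (Finset.card_le_card Finset.inter_subset_left).trans ?_
              rw [← Finset.card_map (Function.Embedding.subtype _)]
              refine Finset.card_le_card fun x hx => ?_
              rw [Finset.mem_map] at hx
              obtain ⟨y, hy, rfl⟩ := hx
              exact (hGA y).mp hy
            · refine le_trans (Nat.mul_le_mul_left _ ?_) (hbig _ n h)
              omega
        · push Not at hex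
          refine ⟨0, fun n _ => ?_⟩
          rw [hex n, Finset.card_empty, Nat.cast_zero, zero_div]
          positivity
    obtain ⟨n0, hn0⟩ := hall
    calc ∑ n ∈ B, ((G ∩ C n).card : ℝ) / (C n).card
        ≤ ∑ n ∈ B, ((if n = n0 then 1 else 0) + (1 / 2 : ℝ) ^ n) :=
          Finset.sum_le_sum fun n _ => by
            by_cases h : n = n0
            · rw [if_pos h]
              have := hle1 n
              have h2 : (0 : ℝ) ≤ (1 / 2) ^ n := by positivity
              linarith
            · rw [if_neg h, zero_add]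
              exact hn0 n h
      _ = (∑ n ∈ B, if n = n0 then (1 : ℝ) else 0) + ∑ n ∈ B, (1 / 2 : ℝ) ^ n :=
          Finset.sum_add_distrib
      _ ≤ 1 + 2 := by
          refine add_le_add ?_ hgeom
          rw [Finset.sum_ite_eq']
          split_ifs <;> norm_num
      _ = 3 := by norm_num

theorem not_containsC0_of_mem {H : Set Node} (hH : H ∈ antichainIdeal)
    (X : Type) [NormedAddCommGroup X] [NormedSpace ℝ X] (J : (H →₀ ℝ) →ₗ[ℝ] X)
    (hJ : IsCompletion (restr family H) X J) : ¬ ContainsC0 X := by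
  classical
  obtain ⟨k, A, hA, hHA⟩ := hH
  refine no_c0 (K := k) (fun x => ?_) X J hJ
  have hcov : ∀ s : H, ∃ i, (s : Node) ∈ A i := fun s => by
    exact Set.mem_iUnion.mp (hHA.subset s.2)
  calc ∑ s ∈ x.support, |x s|
      ≤ ∑ s ∈ x.support, ∑ i : Fin k, if (s : Node) ∈ A i then |x s| else 0 :=
        Finset.sum_le_sum fun s _ => by
          obtain ⟨i, hi⟩ := hcov s
          refine le_trans (le_of_eq ?_) (Finset.single_le_sum (f := fun i : Fin k =>
            if (s : Node) ∈ A i then |x s| else 0) (fun i _ => ?_) (Finset.mem_univ i))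
          · rw [if_pos hi]
          · split_ifs
            · exact abs_nonneg _
            · exact le_rfl
    _ = ∑ i : Fin k, ∑ s ∈ x.support.filter (fun s : H => (s : Node) ∈ A i), |x s| := by
        rw [Finset.sum_comm]
        exact Finset.sum_congr rfl fun i _ => (Finset.sum_filter _ _).symm
    _ ≤ ∑ _i : Fin k, famNorm (restr family H) x := Finset.sum_le_sum fun i _ => by
        refine le_famNorm x ⟨(x.support.filter (fun s : H => (s : Node) ∈ A i)).map
          (Function.Embedding.subtype _), Or.inl ?_, ?_⟩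
        · intro s hs t ht hst
          rw [Finset.mem_coe, Finset.mem_map] at hs ht
          obtain ⟨s, hs, rfl⟩ := hs
          obtain ⟨t, ht, rfl⟩ := ht
          exact hA i _ (Finset.mem_filter.mp hs).2 _ (Finset.mem_filter.mp ht).2 hst
        · intro s
          rw [Finset.mem_map]
          constructor
          · exact fun hs => ⟨s, hs, rfl⟩
          · rintro ⟨t, ht, h⟩
            have : t = s := Subtype.ext h
            rwa [← this]
    _ = k * famNorm (restr family H) x := by
        rw [Finset.sum_const, Finset.card_univ, Fintype.card_fin, nsmul_eq_mul]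

theorem restr_cover (H : Set Node) (s : H) : ∃ G ∈ restr family H, s ∈ G := by
  refine ⟨{s}, ⟨{(s : Node)}, Or.inl ?_, fun t => ?_⟩, Finset.mem_singleton_self s⟩
  · intro a ha b hb _
    rw [Finset.mem_coe, Finset.mem_singleton] at ha hb
    rw [ha, hb]
  · rw [Finset.mem_singleton, Finset.mem_singleton]
    exact Subtype.ext_iff

/-- There is a family `F` of finite sets that covers the binary tree such that `H(F, ¬c_0)` is the
collection of the finite unions of antichains. -/
theorem result : ∃ F : Set (Finset Node), (∀ s, ∃ A ∈ F, s ∈ A) ∧ notC0 F = antichainIdeal := by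
  refine ⟨family, family_cover, ?_⟩
  ext H
  constructor
  · rintro ⟨X, _, _, J, hJ, hX⟩
    by_contra hH
    exact hX (containsC0_of_notMem hH X J hJ)
  · intro hH
    obtain ⟨X, _, _, J, hJ⟩ := exists_completion (restr family H) (restr_cover H)
    exact ⟨X, _, _, J, hJ, not_containsC0_of_mem hH X J hJ⟩

end Pool.Agent.Results.MP_de5a3f_an.ChainAntichain
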